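import Mathlib
import Pool.Agent.Helper683.Count

/-!
Intrinsically n-linked directed graphs exist for every n.

Every arc of a spatial embedding below is an arbitrary continuous injective arc (tame or wild), and
a link is called nonsplit when no topologically embedded 2-sphere in its complement has components
of the link on both sides.  Both choices make the statement stronger than its tame version.
-/

namespace Pool.Agent.Results.MP_4fe900_gt.SymmetricDigraphInL

open Set

/-- Euclidean three-space. -/
abbrev R3 := EuclideanSpace ℝ (Fin 3)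

/-- A finite digraph.  Parallel and opposite arcs are allowed, loops are not. -/
structure FinDigraph where
  /-- vertices -/
  V : Type
  /-- arcs -/
  E : Type
  finV : Finite V
  finE : Finite E
  /-- tail of an arc -/
  src : E → V
  /-- head of an arc -/
  tgt : E → V
  loopless : ∀ e, src e ≠ tgt e

/-- A spatial embedding: distinct points for the vertices, and for each arc `e` a simple arc in
three-space from the point of its tail to the point of its head; different arcs meet at most in
end points, and an arc meets the points of the vertices only at its ends. -/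
structure SpatialEmbedding (D : FinDigraph) where
  pos : D.V → R3
  arc : D.E → C(unitInterval, R3)
  pos_injective : Function.Injective pos
  arc_injective : ∀ e, Function.Injective (arc e)
  arc_zero : ∀ e, arc e 0 = pos (D.src e)
  arc_one : ∀ e, arc e 1 = pos (D.tgt e)
  arc_vertex : ∀ e v t, arc e t = pos v → t = 0 ∨ t = 1
  arc_disjoint : ∀ e e', e ≠ e' → ∀ s t, arc e s = arc e' t → (s = 0 ∨ s = 1) ∧ (t = 0 ∨ t = 1)

/-- A consistently oriented cycle `x_0, x_1, ..., x_k = x_0`, `k ≥ 2`: distinct vertices, distinct
arcs, and the `i`-th arc points from `x_i` to `x_{i+1}` (indices mod `k`). -/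
structure DiCycle (D : FinDigraph) where
  k : ℕ
  two_le : 2 ≤ k
  vert : ZMod k → D.V
  edge : ZMod k → D.E
  vert_injective : Function.Injective vert
  edge_injective : Function.Injective edge
  src_edge : ∀ i, D.src (edge i) = vert i
  tgt_edge : ∀ i, D.tgt (edge i) = vert (i + 1)

/-- The closed curve that a cycle becomes under a spatial embedding. -/
def DiCycle.image {D : FinDigraph} (C : DiCycle D) (f : SpatialEmbedding D) : Set R3 :=
  ⋃ i, range (f.arc (C.edge i))

/-- An `n`-component link with components `K i` is nonsplit: whenever an embedded 2-sphere misses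
all components, all points of all components lie in one component of the complement of the
sphere, that is, no two components of the link lie on different sides of it. -/
def Nonsplit {n : ℕ} (K : Fin n → Set R3) : Prop :=
  ∀ S : C(Metric.sphere (0 : R3) 1, R3), Function.Injective S →
    (∀ i, Disjoint (range S) (K i)) →
      ∀ i j, ∀ x ∈ K i, ∀ y ∈ K j, y ∈ connectedComponentIn (range S)ᶜ x

/-- `D` is intrinsically `n`-linked (InL): for every spatial embedding some `n` pairwise
vertex-disjoint consistently oriented cycles have images forming a nonsplit link. -/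
def IsInL (D : FinDigraph) (n : ℕ) : Prop :=
  ∀ f : SpatialEmbedding D, ∃ C : Fin n → DiCycle D,
    (∀ i j, i ≠ j → Disjoint (range (C i).vert) (range (C j).vert)) ∧
      Nonsplit (fun i => (C i).image f)

/-- The complete symmetric digraph on `N` vertices: one arc from `a` to `b` for every ordered pair
of distinct vertices. -/
def completeSymmetric (N : ℕ) : FinDigraph where
  V := Fin N
  E := {p : Fin N × Fin N // p.1 ≠ p.2}
  finV := inferInstance
  finE := inferInstance
  src e := e.1.1
  tgt e := e.1.2
  loopless e := e.2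

open Pool.Agent.Helper683

theorem succ_ne {k : ℕ} (hk : 2 ≤ k) (i : ZMod k) : i ≠ i + 1 := by
  intro h
  have h1 : (1 : ZMod k) = 0 := by
    have : i + 0 = i + 1 := by rw [add_zero]; exact h
    exact (add_left_cancel this).symm
  have : Fact (1 < k) := ⟨by omega⟩
  exact one_ne_zero h1

/-- cycle of the complete symmetric digraph through given distinct vertices -/
def mk (N k : ℕ) (hk : 2 ≤ k) (v : ZMod k → Fin N) (hv : Function.Injective v) :
    DiCycle (completeSymmetric N) where
  k := k
  two_le := hk
  vert := v
  edge i := ⟨(v i, v (i + 1)), hv.ne (succ_ne hk i)⟩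
  vert_injective := hv
  edge_injective := by
    intro i j h
    have := congrArg (fun e : {p : Fin N × Fin N // p.1 ≠ p.2} => e.1.1) h
    exact hv this
  src_edge _ := rfl
  tgt_edge _ := rfl

/-- image of a short cycle -/
def imV {N : ℕ} (f : SpatialEmbedding (completeSymmetric N)) (σ : SC (Fin N)) : Set R3 :=
  {p | ∃ i < slen σ, ∃ (h : su σ i ≠ su σ (i+1)) (t : unitInterval),
    f.arc ⟨(su σ i, su σ (i+1)), h⟩ t = p}

theorem su_len {V : Type*} (σ : SC V) : su σ (slen σ) = su σ 0 := by
  unfold slen su; split_ifs <;> simp_all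

theorem su_inj {V : Type*} (σ : SC V) (hσ : sok σ) (i j : ℕ) (hi : i < slen σ) (hj : j < slen σ)
    (h : su σ i = su σ j) : i = j := by
  obtain ⟨b, x, y, z⟩ := σ
  obtain ⟨h1, h2⟩ := hσ
  simp only at h1 h2
  cases b
  · have e1 : i = 0 ∨ i = 1 := by simp [slen] at hi; omega
    have e2 : j = 0 ∨ j = 1 := by simp [slen] at hj; omega
    rcases e1 with rfl | rfl <;> rcases e2 with rfl | rfl <;> simp_all [su]
  · obtain ⟨h3, h4⟩ := h2 rfl
    have e1 : i = 0 ∨ i = 1 ∨ i = 2 := by simp [slen] at hi; omega
    have e2 : j = 0 ∨ j = 1 ∨ j = 2 := by simp [slen] at hj; omega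
    rcases e1 with rfl | rfl | rfl <;> rcases e2 with rfl | rfl | rfl <;> simp_all [su]

theorem exists_cycle {N : ℕ} (f : SpatialEmbedding (completeSymmetric N)) (σ : SC (Fin N))
    (hσ : sok σ) : ∃ C : DiCycle (completeSymmetric N), range C.vert = (sv σ : Set (Fin N)) ∧
      C.image f = imV f σ := by
  have hk : 2 ≤ slen σ := by unfold slen; split_ifs <;> norm_num
  have hne : NeZero (slen σ) := ⟨by omega⟩
  have hf1 : Fact (1 < slen σ) := ⟨by omega⟩
  let v : ZMod (slen σ) → Fin N := fun i => su σ i.val
  have hv : Function.Injective v := by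
    intro i j hij
    exact ZMod.val_injective _ (su_inj σ hσ _ _ (ZMod.val_lt i) (ZMod.val_lt j) hij)
  have hv1 : ∀ i, v (i + 1) = su σ (i.val + 1) := by
    intro i
    simp only [v]
    rw [ZMod.val_add, ZMod.val_one]
    rcases (show i.val + 1 ≤ slen σ from ZMod.val_lt i).lt_or_eq with h | h
    · rw [Nat.mod_eq_of_lt h]
    · rw [h, Nat.mod_self, su_len]
  refine ⟨mk N (slen σ) hk v hv, ?_, ?_⟩
  · ext w
    simp only [mk, sv, Finset.coe_image, Finset.coe_range]
    constructor
    · rintro ⟨i, rfl⟩
      exact ⟨i.val, ZMod.val_lt i, rfl⟩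
    · rintro ⟨i, hi, rfl⟩
      exact ⟨(i : ZMod (slen σ)), by simp only [v]; rw [ZMod.val_cast_of_lt hi]⟩
  · ext p
    simp only [DiCycle.image, mk, mem_iUnion, mem_range, imV, mem_ofPred_eq]
    constructor
    · rintro ⟨i, t, rfl⟩
      have hne' : su σ i.val ≠ su σ (i.val + 1) := by
        rw [← hv1 i]; exact hv.ne (succ_ne hk i)
      refine ⟨i.val, ZMod.val_lt i, hne', t, ?_⟩
      congr 2
      apply Subtype.ext
      exact Prod.ext rfl (hv1 i).symm
    · rintro ⟨i, hi, h, t, rfl⟩
      refine ⟨(i : ZMod (slen σ)), t, ?_⟩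
      congr 2
      apply Subtype.ext
      have e : ZMod.val (i : ZMod (slen σ)) = i := ZMod.val_cast_of_lt hi
      refine Prod.ext ?_ ?_
      · simp only [v]; rw [e]
      · show v ((i : ZMod (slen σ)) + 1) = _
        rw [hv1, e]

/-- For every `n ≥ 2` the complete symmetric digraph on any number `N ≥ 7884 n` of vertices is
intrinsically `n`-linked; in particular intrinsically `n`-linked digraphs exist for every `n ≥ 5`. -/
theorem result : ∀ n N : ℕ, 2 ≤ n → 7884 * n ≤ N → IsInL (completeSymmetric N) n := by
  classical
  intro n N hn hN f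
  obtain ⟨m, rfl⟩ : ∃ m, n = m + 1 := ⟨n - 1, by omega⟩
  -- every injection of six vertices gives a nonsplit pair of short cycles
  have hR : ∀ x : Fin 6 → Fin N, Function.Injective x → ∃ α β : Cy, Cy.ok α ∧ Cy.ok β ∧ Cy.dj α β ∧
      (α.1 = false → α.2.2.2 = α.2.1) ∧ (¬ Sep (imV f (mp x α)) (imV f (mp x β)) ∧
        IsPreconnected (imV f (mp x α)) ∧ IsPreconnected (imV f (mp x β))) := by
    intro x hx
    let A : Fin 6 → Fin 6 → ℝ → R3 := fun a b t =>
      if h : x a ≠ x b then f.arc ⟨(x a, x b), h⟩ (projIcc 0 1 zero_le_one t) else 0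
    have hA : ∀ a b, Continuous (A a b) := by
      intro a b
      simp only [A]
      split_ifs with h
      · exact (f.arc _).continuous.comp continuous_projIcc
      · exact continuous_const
    have h0 : ∀ a b, a ≠ b → A a b 0 = f.pos (x a) := by
      intro a b hab
      simp only [A]
      rw [dif_pos (hx.ne hab), projIcc_left]
      exact f.arc_zero _
    have h1 : ∀ a b, a ≠ b → A a b 1 = f.pos (x b) := by
      intro a b hab
      simp only [A]
      rw [dif_pos (hx.ne hab), projIcc_right]
      exact f.arc_one _
    have him : ∀ α : Cy, Cy.ok α → Im A α = imV f (mp x α) := by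
      intro α hα
      ext p
      simp only [Im, imV, mem_ofPred_eq, slen_mp]
      constructor
      · rintro ⟨i, hi, t, ht, rfl⟩
        have hne := hx.ne (Cy.u_ne α hα i hi)
        refine ⟨i, hi, by rw [su_mp, su_mp]; exact hne, projIcc 0 1 zero_le_one t, ?_⟩
        simp only [A]
        rw [dif_pos hne]
        congr 2
        apply Subtype.ext
        exact Prod.ext (su_mp x α i) (su_mp x α (i+1))
      · rintro ⟨i, hi, h, t, rfl⟩
        have hne := hx.ne (Cy.u_ne α hα i hi)
        refine ⟨i, hi, t.1, t.2, ?_⟩
        simp only [A]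
        rw [dif_pos hne, projIcc_val]
        congr 2
        apply Subtype.ext
        exact Prod.ext (su_mp x α i).symm (su_mp x α (i+1)).symm
    obtain ⟨α, β, hα, hβ, hd, hs⟩ := key A (fun a => f.pos (x a)) hA h0 h1
    -- normalise the unused coordinate
    let α' : Cy := (α.1, α.2.1, α.2.2.1, if α.1 = true then α.2.2.2 else α.2.1)
    have hu : ∀ i, Cy.u α' i = Cy.u α i := by
      intro i
      simp only [Cy.u, α']
      split_ifs <;> simp_all
    have hlen : Cy.len α' = Cy.len α := rfl
    have hα' : Cy.ok α' := by
      refine ⟨hα.1, fun h => ?_⟩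
      have h' : α.1 = true := h
      simp only [α', h', if_true]
      exact hα.2 h'
    have hIm : Im A α' = Im A α := by
      unfold Im
      simp only [hu, hlen]
    refine ⟨α', β, hα', hβ, ?_, ?_, ?_⟩
    · intro i hi j hj
      rw [hu]; exact hd i hi j hj
    · intro h
      have h' : α.1 = false := h
      simp [α', h']
    · rw [← him α' hα', ← him β hβ]
      exact ⟨by rw [hIm]; exact hs, Im_conn A _ hA h0 h1 α' hα', Im_conn A _ hA h0 h1 β hβ⟩
  obtain ⟨σ, hσ, T, hT, hTd⟩ := star m (fun σ τ => ¬ Sep (imV f σ) (imV f τ) ∧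
    IsPreconnected (imV f σ) ∧ IsPreconnected (imV f τ)) hR (by
    simp only [Fintype.card_sum, Fintype.card_prod, Fintype.card_bool, Fintype.card_fin]
    omega)
  obtain ⟨C0, hC0, hI0⟩ := exists_cycle f σ hσ
  have hCT := fun i => exists_cycle f (T i) (hT i).1
  choose CT hCT1 hCT2 using hCT
  refine ⟨Fin.cons C0 CT, ?_, ?_⟩
  · intro i j hij
    refine Fin.cases ?_ (fun i' => ?_) i (motive := fun i => i ≠ j →
      Disjoint (range ((Fin.cons C0 CT : Fin (m+1) → DiCycle (completeSymmetric N)) i).vert)
        (range ((Fin.cons C0 CT : Fin (m+1) → DiCycle (completeSymmetric N)) j).vert)) hij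
    · refine Fin.cases ?_ (fun j' => ?_) j
      · intro h; exact absurd rfl h
      · intro _
        rw [Fin.cons_zero, Fin.cons_succ, hC0, hCT1]
        exact Finset.disjoint_coe.mpr (hT j').2.1
    · refine Fin.cases ?_ (fun j' => ?_) j
      · intro _
        rw [Fin.cons_zero, Fin.cons_succ, hC0, hCT1]
        exact Finset.disjoint_coe.mpr (hT i').2.1.symm
      · intro h
        rw [Fin.cons_succ, Fin.cons_succ, hCT1, hCT1]
        exact Finset.disjoint_coe.mpr (hTd i' j' (fun e => h (by rw [e])))
  · -- nonsplit: every component lies on the side of the first one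
    intro S hS hdis
    have hsub : ∀ i : Fin (m+1),
        ((Fin.cons C0 CT : Fin (m+1) → DiCycle (completeSymmetric N)) i).image f ⊆ (range S)ᶜ :=
      fun i z hz hz' => Set.disjoint_left.mp (hdis i) hz' hz
    have h00 : IsPreconnected (C0.image f) := by
      rw [hI0]; exact (hT ⟨0, by omega⟩).2.2.2.1
    have hsub0 : C0.image f ⊆ (range S)ᶜ := by
      have := hsub 0
      rwa [Fin.cons_zero] at this
    have hbase : ∀ i : Fin (m+1), ∀ x ∈ C0.image f,
        ∀ y ∈ ((Fin.cons C0 CT : Fin (m+1) → DiCycle (completeSymmetric N)) i).image f,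
        y ∈ connectedComponentIn (range S)ᶜ x := by
      intro i x hx
      refine Fin.cases ?_ (fun i' => ?_) i
      · intro y hy
        rw [Fin.cons_zero] at hy
        exact h00.subset_connectedComponentIn hx hsub0 hy
      · intro y hy
        rw [Fin.cons_succ] at hy
        by_contra hcon
        apply (hT i').2.2.1
        refine ⟨S, hS, ?_, ?_, x, by rw [← hI0]; exact hx, y, by rw [← hCT2]; exact hy, hcon⟩
        · rw [← hI0]
          exact hdis 0
        · rw [← hCT2]
          exact hdis i'.succ
    obtain ⟨x0, hx0⟩ : (C0.image f).Nonempty :=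
      ⟨f.arc (C0.edge 0) 0, mem_iUnion.mpr ⟨0, 0, rfl⟩⟩
    intro i j x hx y hy
    have e1 := hbase i x0 hx0 x hx
    have e2 := hbase j x0 hx0 y hy
    rwa [connectedComponentIn_eq e1] at e2

end Pool.Agent.Results.MP_4fe900_gt.SymmetricDigraphInL
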